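import Mathlib

/-!
# A minimal covering body containing a full-dimensional lattice polytope in its interior

Negative answer to Q1 of `MP_4f7bfc_co` (Lian-Xue), already in dimension three.
-/

namespace Pool.Agent.Results.MP_4f7bfc_co.InteriorVertex

open Set

/-- Euclidean `n`-space. -/
abbrev E (n : ℕ) := EuclideanSpace ℝ (Fin n)

/-- The lattice `A ℤⁿ` of a real `n × n` matrix `A`. -/
def latticeOf {n : ℕ} (A : Matrix (Fin n) (Fin n) ℝ) : Set (E n) :=
  {v | ∃ k : Fin n → ℤ, ∀ i, v i = ∑ j, A i j * (k j : ℝ)}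

/-- `K` is a lattice covering body for `L`: compact, convex, and `K + L` is everything. -/
def IsCoveringBody {n : ℕ} (L K : Set (E n)) : Prop :=
  IsCompact K ∧ Convex ℝ K ∧ ∀ y : E n, ∃ p ∈ K, ∃ l ∈ L, p + l = y

/-- `K` is a minimal covering body for `L`. -/
def IsMinimalCoveringBody {n : ℕ} (L K : Set (E n)) : Prop :=
  IsCoveringBody L K ∧ ∀ K' : Set (E n), IsCoveringBody L K' → K' ⊆ K → K' = K

/-- `Q` is a full-dimensional lattice polytope for `L`. -/
def IsFullLatticePolytope {n : ℕ} (L Q : Set (E n)) : Prop :=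
  ∃ S : Set (E n), S.Finite ∧ S ⊆ L ∧ Q = convexHull ℝ S ∧ (interior Q).Nonempty

/-- The translate `Q + x`. -/
def translate {n : ℕ} (Q : Set (E n)) (x : E n) : Set (E n) := (fun q => q + x) '' Q

/-- The statement whose truth is asked in Q1 (Lian-Xue). -/
def LianXueStatement : Prop :=
  ∀ n : ℕ, 1 ≤ n → ∀ A : Matrix (Fin n) (Fin n) ℝ, A.det ≠ 0 →
    ∀ K : Set (E n), IsMinimalCoveringBody (latticeOf A) K →
    ∀ Q : Set (E n), IsFullLatticePolytope (latticeOf A) Q →
    ∀ x : E n, translate Q x ⊆ K →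
    ∀ v ∈ (translate Q x).extremePoints ℝ, v ∈ frontier K

/-! ## Points of three-space -/

/-- The point with coordinates `x, y, z`. -/
def P (x y z : ℝ) : E 3 := !₂[x, y, z]

@[simp] lemma P0 (x y z : ℝ) : P x y z 0 = x := rfl
@[simp] lemma P1 (x y z : ℝ) : P x y z 1 = y := rfl
@[simp] lemma P2 (x y z : ℝ) : P x y z 2 = z := rfl

lemma ext3 {u v : E 3} (h0 : u 0 = v 0) (h1 : u 1 = v 1) (h2 : u 2 = v 2) : u = v := by
  ext i
  fin_cases i
  · exact h0
  · exact h1
  · exact h2

lemma P_eta (u : E 3) : P (u 0) (u 1) (u 2) = u := ext3 rfl rfl rfl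

lemma comb {K : Set (E 3)} (hc : Convex ℝ K) {x1 y1 z1 x2 y2 z2 x3 y3 z3 x4 y4 z4 x y z : ℝ}
    (h1 : P x1 y1 z1 ∈ K) (h2 : P x2 y2 z2 ∈ K) (h3 : P x3 y3 z3 ∈ K) (h4 : P x4 y4 z4 ∈ K)
    (a b c d : ℝ) (ha : 0 ≤ a) (hb : 0 ≤ b) (hcc : 0 ≤ c) (hd : 0 ≤ d) (hs : a + b + c + d = 1)
    (hx : x = a * x1 + b * x2 + c * x3 + d * x4) (hy : y = a * y1 + b * y2 + c * y3 + d * y4)
    (hz : z = a * z1 + b * z2 + c * z3 + d * z4) : P x y z ∈ K := by
  have h := hc.sum_mem (t := Finset.univ) (w := ![a, b, c, d])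
    (z := ![P x1 y1 z1, P x2 y2 z2, P x3 y3 z3, P x4 y4 z4]) (by
      intro i _
      fin_cases i <;> simp [ha, hb, hcc, hd]) (by simp [Fin.sum_univ_four, hs]) (by
      intro i _
      fin_cases i <;> simp [h1, h2, h3, h4])
  have e : P x y z = ∑ i, (![a, b, c, d] : Fin 4 → ℝ) i •
      (![P x1 y1 z1, P x2 y2 z2, P x3 y3 z3, P x4 y4 z4] : Fin 4 → E 3) i := by
    rw [Fin.sum_univ_four]
    apply ext3 <;> simp [hx, hy, hz]
  rw [e]
  exact h

lemma abs_coord_le (u : E 3) (i : Fin 3) : |u i| ≤ ‖u‖ := by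
  have := EuclideanSpace.norm_eq u
  rw [this]
  apply Real.abs_le_sqrt
  have h : (u i) ^ 2 = ‖u i‖ ^ 2 := by simp
  rw [h]
  exact Finset.single_le_sum (f := fun i => ‖u i‖ ^ 2) (fun j _ => by positivity)
    (Finset.mem_univ i)

lemma cross {K : Set (E 3)} (hc : Convex ℝ K) {x y z ε : ℝ} (hε : 0 < ε)
    (h1 : P (x + ε) y z ∈ K) (h2 : P (x - ε) y z ∈ K)
    (h3 : P x (y + ε) z ∈ K) (h4 : P x (y - ε) z ∈ K)
    (h5 : P x y (z + ε) ∈ K) (h6 : P x y (z - ε) ∈ K) : P x y z ∈ interior K := by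
  rw [mem_interior_iff_mem_nhds, Metric.mem_nhds_iff]
  refine ⟨ε / 3, by positivity, ?_⟩
  intro q hq
  rw [mem_ball_iff_norm] at hq
  have e0 := (abs_coord_le (q - P x y z) 0).trans hq.le
  have e1 := (abs_coord_le (q - P x y z) 1).trans hq.le
  have e2 := (abs_coord_le (q - P x y z) 2).trans hq.le
  simp only [PiLp.sub_apply, P0, P1, P2] at e0 e1 e2
  rw [abs_le] at e0 e1 e2
  obtain ⟨a0, hx⟩ : ∃ a, a = q 0 - x := ⟨_, rfl⟩
  obtain ⟨a1, hy⟩ : ∃ a, a = q 1 - y := ⟨_, rfl⟩
  obtain ⟨a2, hz⟩ : ∃ a, a = q 2 - z := ⟨_, rfl⟩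
  rw [← hx] at e0
  rw [← hy] at e1
  rw [← hz] at e2
  have bound : ∀ a : ℝ, -(ε / 3) ≤ a → a ≤ ε / 3 → 0 ≤ 1 / 2 + 3 * a / (2 * ε) ∧
      0 ≤ 1 / 2 - 3 * a / (2 * ε) := by
    intro a h h'
    have : 3 * a / (2 * ε) ≤ 1 / 2 := by
      rw [div_le_iff₀ (by positivity)]
      linarith
    have : -(1 / 2) ≤ 3 * a / (2 * ε) := by
      rw [le_div_iff₀ (by positivity)]
      linarith
    constructor <;> linarith
  have A : P (x + 3 * a0) y z ∈ K := by
    obtain ⟨b1, b2⟩ := bound a0 e0.1 e0.2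
    refine comb hc h1 h2 h1 h1 (1 / 2 + 3 * a0 / (2 * ε)) (1 / 2 - 3 * a0 / (2 * ε)) 0 0 b1 b2
      le_rfl le_rfl (by ring) ?_ (by ring) (by ring)
    field_simp
    ring
  have B : P x (y + 3 * a1) z ∈ K := by
    obtain ⟨b1, b2⟩ := bound a1 e1.1 e1.2
    refine comb hc h3 h4 h1 h1 (1 / 2 + 3 * a1 / (2 * ε)) (1 / 2 - 3 * a1 / (2 * ε)) 0 0 b1 b2
      le_rfl le_rfl (by ring) (by ring) ?_ (by ring)
    field_simp
    ring
  have C : P x y (z + 3 * a2) ∈ K := by
    obtain ⟨b1, b2⟩ := bound a2 e2.1 e2.2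
    refine comb hc h5 h6 h1 h1 (1 / 2 + 3 * a2 / (2 * ε)) (1 / 2 - 3 * a2 / (2 * ε)) 0 0 b1 b2
      le_rfl le_rfl (by ring) (by ring) (by ring) ?_
    field_simp
    ring
  have D : P (q 0) (q 1) (q 2) ∈ K := by
    refine comb hc A B C C (1 / 3) (1 / 3) (1 / 3) 0 (by norm_num) (by norm_num) (by norm_num)
      le_rfl (by norm_num) ?_ ?_ ?_
    · rw [show q 0 = x + a0 by rw [hx]; ring]; ring
    · rw [show q 1 = y + a1 by rw [hy]; ring]; ring
    · rw [show q 2 = z + a2 by rw [hz]; ring]; ring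
  rwa [P_eta] at D

/-! ## The lattice -/

/-- A basis matrix. -/
def U : Matrix (Fin 3) (Fin 3) ℝ := !![-3, -2, 3; -5, -6, -3; 2, 6, 1]

lemma det_U : U.det = -88 := by
  rw [Matrix.det_fin_three]
  simp [U]
  norm_num

lemma mem_lat_iff (v : E 3) : v ∈ latticeOf U ↔
    ∃ a b c d : ℤ, v 0 = a ∧ v 1 = b ∧ v 2 = c ∧ a + 9 * b + 24 * c = 88 * d := by
  constructor
  · rintro ⟨k, hk⟩
    refine ⟨-3 * k 0 - 2 * k 1 + 3 * k 2, -5 * k 0 - 6 * k 1 - 3 * k 2,
      2 * k 0 + 6 * k 1 + k 2, k 1, ?_, ?_, ?_, by ring⟩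
    · rw [hk 0, Fin.sum_univ_three]
      simp [U]
      ring
    · rw [hk 1, Fin.sum_univ_three]
      simp [U]
      ring
    · rw [hk 2, Fin.sum_univ_three]
      simp [U]
  · rintro ⟨a, b, c, d, h0, h1, h2, h⟩
    refine ⟨![b + 3 * c - 12 * d, d, -2 * b - 5 * c + 18 * d], ?_⟩
    have h' : (a : ℝ) + 9 * b + 24 * c = 88 * d := by exact_mod_cast h
    intro i
    fin_cases i
    · simp only [Fin.zero_eta, h0, Fin.sum_univ_three]
      simp [U]
      linarith
    · simp only [Fin.mk_one, h1, Fin.sum_univ_three]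
      simp [U]
      ring
    · simp only [Fin.reduceFinMk, h2, Fin.sum_univ_three]
      simp [U]
      ring

lemma isClosed_lat : IsClosed (latticeOf U) := by
  have hZ : IsClosed (Set.range (fun k : ℤ => (k : ℝ))) :=
    Int.isClosedEmbedding_coe_real.isClosed_range
  have c0 : Continuous (fun v : E 3 => v 0) := by fun_prop
  have c1 : Continuous (fun v : E 3 => v 1) := by fun_prop
  have c2 : Continuous (fun v : E 3 => v 2) := by fun_prop
  have c3 : Continuous (fun v : E 3 => (v 0 + 9 * v 1 + 24 * v 2) / 88) := by fun_prop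
  have e : latticeOf U = ((fun v : E 3 => v 0) ⁻¹' Set.range (fun k : ℤ => (k : ℝ))) ∩
      (((fun v : E 3 => v 1) ⁻¹' Set.range (fun k : ℤ => (k : ℝ))) ∩
      (((fun v : E 3 => v 2) ⁻¹' Set.range (fun k : ℤ => (k : ℝ))) ∩
      ((fun v : E 3 => (v 0 + 9 * v 1 + 24 * v 2) / 88) ⁻¹'
        Set.range (fun k : ℤ => (k : ℝ))))) := by
    ext v
    rw [mem_lat_iff]
    constructor
    · rintro ⟨a, b, c, d, h0, h1, h2, h⟩
      refine ⟨⟨a, h0.symm⟩, ⟨b, h1.symm⟩, ⟨c, h2.symm⟩, ⟨d, ?_⟩⟩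
      have h' : (a : ℝ) + 9 * b + 24 * c = 88 * d := by exact_mod_cast h
      simp only
      rw [h0, h1, h2, h']
      ring
    · rintro ⟨⟨a, h0⟩, ⟨b, h1⟩, ⟨c, h2⟩, ⟨d, h3⟩⟩
      refine ⟨a, b, c, d, h0.symm, h1.symm, h2.symm, ?_⟩
      simp only at h0 h1 h2 h3
      rw [← h0, ← h1, ← h2, eq_div_iff (by norm_num)] at h3
      have : (a : ℝ) + 9 * b + 24 * c = 88 * d := by linarith
      exact_mod_cast this
  rw [e]
  exact (hZ.preimage c0).inter ((hZ.preimage c1).inter ((hZ.preimage c2).inter (hZ.preimage c3)))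

/-! ## The covering simplex -/

/-- The covering simplex. -/
def K0 : Set (E 3) := {v | 0 ≤ v 0 ∧ 0 ≤ v 1 ∧ 0 ≤ v 2 ∧ v 0 + v 1 + v 2 ≤ 11}

lemma K0_convex : Convex ℝ K0 := by
  intro u hu v hv a b ha hb hab
  obtain ⟨u0, u1, u2, u3⟩ := hu
  obtain ⟨v0, v1, v2, v3⟩ := hv
  refine ⟨?_, ?_, ?_, ?_⟩ <;> simp only [PiLp.add_apply, PiLp.smul_apply, smul_eq_mul]
  · positivity
  · positivity
  · positivity
  · have h1 : a * (u 0 + u 1 + u 2) ≤ a * 11 := mul_le_mul_of_nonneg_left u3 ha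
    have h2 : b * (v 0 + v 1 + v 2) ≤ b * 11 := mul_le_mul_of_nonneg_left v3 hb
    have h3 : a * 11 + b * 11 = 11 := by rw [← add_mul, hab, one_mul]
    linarith

lemma K0_closed : IsClosed K0 := by
  have c0 : Continuous (fun v : E 3 => v 0) := by fun_prop
  have c1 : Continuous (fun v : E 3 => v 1) := by fun_prop
  have c2 : Continuous (fun v : E 3 => v 2) := by fun_prop
  have c3 : Continuous (fun v : E 3 => v 0 + v 1 + v 2) := by fun_prop
  exact (isClosed_le continuous_const c0).inter ((isClosed_le continuous_const c1).inter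
    ((isClosed_le continuous_const c2).inter (isClosed_le c3 continuous_const)))

lemma K0_compact : IsCompact K0 := by
  apply Metric.isCompact_of_isClosed_isBounded K0_closed
  rw [Metric.isBounded_iff_subset_closedBall (0 : E 3)]
  refine ⟨33, ?_⟩
  rintro v ⟨h0, h1, h2, h3⟩
  rw [mem_closedBall_zero_iff, EuclideanSpace.norm_eq, Fin.sum_univ_three]
  apply Real.sqrt_le_iff.2
  refine ⟨by norm_num, ?_⟩
  simp only [Real.norm_eq_abs, sq_abs]
  have a0 : v 0 ≤ 11 := by linarith
  have a1 : v 1 ≤ 11 := by linarith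
  have a2 : v 2 ≤ 11 := by linarith
  have b0 : v 0 ^ 2 ≤ 11 ^ 2 := pow_le_pow_left₀ h0 a0 2
  have b1 : v 1 ^ 2 ≤ 11 ^ 2 := pow_le_pow_left₀ h1 a1 2
  have b2 : v 2 ^ 2 ≤ 11 ^ 2 := pow_le_pow_left₀ h2 a2 2
  linarith

lemma cover_residue : ∀ r : Fin 88, ∃ x : Fin 9, ∃ y : Fin 9, ∃ z : Fin 9,
    x.val + y.val + z.val ≤ 8 ∧ (x.val + 9 * y.val + 24 * z.val) % 88 = r.val := by
  decide +kernel

lemma K0_covering : IsCoveringBody (latticeOf U) K0 := by
  refine ⟨K0_compact, K0_convex, ?_⟩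
  intro y
  obtain ⟨r, hr⟩ : ∃ r : Fin 88, ((⌊y 0⌋ + 9 * ⌊y 1⌋ + 24 * ⌊y 2⌋) % 88 : ℤ) = (r.val : ℤ) := by
    have h1 : 0 ≤ (⌊y 0⌋ + 9 * ⌊y 1⌋ + 24 * ⌊y 2⌋) % 88 := Int.emod_nonneg _ (by norm_num)
    have h2 : (⌊y 0⌋ + 9 * ⌊y 1⌋ + 24 * ⌊y 2⌋) % 88 < 88 := Int.emod_lt_of_pos _ (by norm_num)
    obtain ⟨m, hm⟩ := Int.eq_ofNat_of_zero_le h1
    exact ⟨⟨m, by omega⟩, hm⟩
  obtain ⟨a, b, c, hs, hm⟩ := cover_residue r
  refine ⟨P (a.val + Int.fract (y 0)) (b.val + Int.fract (y 1)) (c.val + Int.fract (y 2)), ?_,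
    P (⌊y 0⌋ - a.val) (⌊y 1⌋ - b.val) (⌊y 2⌋ - c.val), ?_, ?_⟩
  · have f0 := Int.fract_nonneg (y 0)
    have f1 := Int.fract_nonneg (y 1)
    have f2 := Int.fract_nonneg (y 2)
    have g0 := Int.fract_lt_one (y 0)
    have g1 := Int.fract_lt_one (y 1)
    have g2 := Int.fract_lt_one (y 2)
    have hs' : (a.val : ℝ) + b.val + c.val ≤ 8 := by exact_mod_cast hs
    refine ⟨?_, ?_, ?_, ?_⟩ <;> simp only [P0, P1, P2]
    · positivity
    · positivity
    · positivity
    · linarith
  · rw [mem_lat_iff]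
    refine ⟨⌊y 0⌋ - a.val, ⌊y 1⌋ - b.val, ⌊y 2⌋ - c.val,
      ((⌊y 0⌋ - a.val) + 9 * (⌊y 1⌋ - b.val) + 24 * (⌊y 2⌋ - c.val)) / 88, ?_, ?_, ?_, ?_⟩
    · simp
    · simp
    · simp
    · omega
  · apply ext3 <;> simp only [PiLp.add_apply, P0, P1, P2] <;>
      linarith [Int.floor_add_fract (y 0), Int.floor_add_fract (y 1), Int.floor_add_fract (y 2)]

/-! ## Minimal covering bodies inside a given covering body -/

lemma inter_chain (c : Set (Set (E 3))) (hc : IsChain (· ⊆ ·) c) (hne : c.Nonempty)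
    (h : ∀ K ∈ c, IsCoveringBody (latticeOf U) K) : IsCoveringBody (latticeOf U) (⋂₀ c) := by
  obtain ⟨K1, hK1⟩ := hne
  have hclosed : IsClosed (⋂₀ c) := isClosed_sInter (fun K hK => (h K hK).1.isClosed)
  refine ⟨(h K1 hK1).1.of_isClosed_subset hclosed (sInter_subset_of_mem hK1),
    convex_sInter (fun K hK => (h K hK).2.1), ?_⟩
  intro y
  have hL : IsClosed {p : E 3 | y - p ∈ latticeOf U} :=
    isClosed_lat.preimage (by fun_prop : Continuous (fun p : E 3 => y - p))
  have : Nonempty c := ⟨⟨K1, hK1⟩⟩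
  have key := IsCompact.nonempty_iInter_of_directed_nonempty_isCompact_isClosed
    (fun K : c => K.1 ∩ {p : E 3 | y - p ∈ latticeOf U}) (by
      intro K K'
      rcases hc.total K.2 K'.2 with hh | hh
      · exact ⟨K, subset_rfl, inter_subset_inter_left _ hh⟩
      · exact ⟨K', inter_subset_inter_left _ hh, subset_rfl⟩)
    (by
      intro K
      obtain ⟨p, hp, l, hl, e⟩ := (h K.1 K.2).2.2 y
      refine ⟨p, hp, ?_⟩
      show y - p ∈ latticeOf U
      rw [← e, add_sub_cancel_left]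
      exact hl)
    (fun K => (h K.1 K.2).1.inter_right hL)
    (fun K => (h K.1 K.2).1.isClosed.inter hL)
  obtain ⟨p, hp⟩ := key
  rw [mem_iInter] at hp
  refine ⟨p, ?_, y - p, (hp ⟨K1, hK1⟩).2, by simp⟩
  intro K hK
  exact (hp ⟨K, hK⟩).1

lemma exists_minimal : ∃ K : Set (E 3), K ⊆ K0 ∧ IsMinimalCoveringBody (latticeOf U) K := by
  obtain ⟨m, hm, hmin⟩ := zorn_superset_nonempty
    {K : Set (E 3) | IsCoveringBody (latticeOf U) K} (by
      intro c hcS hc hne
      exact ⟨⋂₀ c, inter_chain c hc hne hcS, fun K hK => sInter_subset_of_mem hK⟩)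
    K0 K0_covering
  refine ⟨m, hm, hmin.prop, ?_⟩
  intro K' hK' hsub
  exact Subset.antisymm hsub (hmin.le_of_le hK' hsub)

/-! ## Essential points -/

/-- Uniqueness of the short representative. -/
def Uniq (a b c : ℕ) : Prop := ∀ x : Fin 9, ∀ y : Fin 9, ∀ z : Fin 9,
  x.val + y.val + z.val ≤ 8 →
  (x.val + 9 * y.val + 24 * z.val) % 88 = (a + 9 * b + 24 * c) % 88 →
  x.val = a ∧ y.val = b ∧ z.val = c

instance (a b c : ℕ) : Decidable (Uniq a b c) := by
  unfold Uniq
  infer_instance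

lemma ess {K : Set (E 3)} (hK : IsCoveringBody (latticeOf U) K) (hK0 : K ⊆ K0)
    {x y z : ℝ} (a b c : ℕ) (f g h : ℝ) (hu : Uniq a b c)
    (hx : x = a + f) (hy : y = b + g) (hz : z = c + h) (hf1 : f < 1) (hg1 : g < 1) (hh1 : h < 1)
    (hs : 2 < f + g + h) : P x y z ∈ K := by
  obtain ⟨p, hp, l, hl, e⟩ := hK.2.2 (P x y z)
  obtain ⟨p0, p1, p2, p3⟩ := hK0 hp
  rw [mem_lat_iff] at hl
  obtain ⟨l0, l1, l2, d, h0, h1, h2, hd⟩ := hl
  have e0 : p 0 + l 0 = x := by rw [← PiLp.add_apply, e]; rfl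
  have e1 : p 1 + l 1 = y := by rw [← PiLp.add_apply, e]; rfl
  have e2 : p 2 + l 2 = z := by rw [← PiLp.add_apply, e]; rfl
  rw [h0] at e0
  rw [h1] at e1
  rw [h2] at e2
  have q0 : p 0 = ((a : ℤ) - l0 : ℤ) + f := by push_cast; linarith
  have q1 : p 1 = ((b : ℤ) - l1 : ℤ) + g := by push_cast; linarith
  have q2 : p 2 = ((c : ℤ) - l2 : ℤ) + h := by push_cast; linarith
  have r0 : (0 : ℤ) ≤ (a : ℤ) - l0 := by
    have : ((-1 : ℤ) : ℝ) < (((a : ℤ) - l0 : ℤ) : ℝ) := by push_cast; push_cast at q0; linarith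
    have := Int.cast_lt.1 this
    omega
  have r1 : (0 : ℤ) ≤ (b : ℤ) - l1 := by
    have : ((-1 : ℤ) : ℝ) < (((b : ℤ) - l1 : ℤ) : ℝ) := by push_cast; push_cast at q1; linarith
    have := Int.cast_lt.1 this
    omega
  have r2 : (0 : ℤ) ≤ (c : ℤ) - l2 := by
    have : ((-1 : ℤ) : ℝ) < (((c : ℤ) - l2 : ℤ) : ℝ) := by push_cast; push_cast at q2; linarith
    have := Int.cast_lt.1 this
    omega
  have r3 : ((a : ℤ) - l0) + ((b : ℤ) - l1) + ((c : ℤ) - l2) ≤ 8 := by
    have : ((((a : ℤ) - l0) + ((b : ℤ) - l1) + ((c : ℤ) - l2) : ℤ) : ℝ) < ((9 : ℤ) : ℝ) := by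
      push_cast; push_cast at q0 q1 q2; linarith
    have := Int.cast_lt.1 this
    omega
  obtain ⟨m0, hm0⟩ := Int.eq_ofNat_of_zero_le r0
  obtain ⟨m1, hm1⟩ := Int.eq_ofNat_of_zero_le r1
  obtain ⟨m2, hm2⟩ := Int.eq_ofNat_of_zero_le r2
  have key := hu ⟨m0, by omega⟩ ⟨m1, by omega⟩ ⟨m2, by omega⟩ (by simp only; omega)
    (by simp only; omega)
  simp only at key
  have z0 : l0 = 0 := by omega
  have z1 : l1 = 0 := by omega
  have z2 : l2 = 0 := by omega
  have : P x y z = p := by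
    apply ext3
    · rw [P0, ← e0, z0]; simp
    · rw [P1, ← e1, z1]; simp
    · rw [P2, ← e2, z2]; simp
  rw [this]
  exact hp

lemma four_interior {K : Set (E 3)} (hK : IsCoveringBody (latticeOf U) K) (hK0 : K ⊆ K0) :
    P (25 / 8) (49 / 8) (1 / 8) ∈ interior K ∧ P (1 / 8) (9 / 8) (17 / 8) ∈ interior K ∧
      P (9 / 8) (1 / 8) (49 / 8) ∈ interior K ∧ P (49 / 8) (25 / 8) (9 / 8) ∈ interior K := by
  have hc := hK.2.1
  have h0 : P (3/50) (49/50) (49/50) ∈ K := ess hK hK0 0 0 0 (3/50) (49/50) (49/50) (by decide +kernel)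
    (by norm_num) (by norm_num) (by norm_num) (by norm_num) (by norm_num) (by norm_num) (by norm_num)
  have h1 : P (3/50) (49/50) (399/50) ∈ K := ess hK hK0 0 0 7 (3/50) (49/50) (49/50) (by decide +kernel)
    (by norm_num) (by norm_num) (by norm_num) (by norm_num) (by norm_num) (by norm_num) (by norm_num)
  have h2 : P (3/50) (399/50) (99/50) ∈ K := ess hK hK0 0 7 1 (3/50) (49/50) (49/50) (by decide +kernel)
    (by norm_num) (by norm_num) (by norm_num) (by norm_num) (by norm_num) (by norm_num) (by norm_num)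
  have h3 : P (49/50) (3/50) (49/50) ∈ K := ess hK hK0 0 0 0 (49/50) (3/50) (49/50) (by decide +kernel)
    (by norm_num) (by norm_num) (by norm_num) (by norm_num) (by norm_num) (by norm_num) (by norm_num)
  have h4 : P (49/50) (3/50) (399/50) ∈ K := ess hK hK0 0 0 7 (49/50) (3/50) (49/50) (by decide +kernel)
    (by norm_num) (by norm_num) (by norm_num) (by norm_num) (by norm_num) (by norm_num) (by norm_num)
  have h5 : P (49/50) (49/50) (3/50) ∈ K := ess hK hK0 0 0 0 (49/50) (49/50) (3/50) (by decide +kernel)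
    (by norm_num) (by norm_num) (by norm_num) (by norm_num) (by norm_num) (by norm_num) (by norm_num)
  have h8 : P (99/50) (399/50) (3/50) ∈ K := ess hK hK0 1 7 0 (49/50) (49/50) (3/50) (by decide +kernel)
    (by norm_num) (by norm_num) (by norm_num) (by norm_num) (by norm_num) (by norm_num) (by norm_num)
  have h11 : P (249/50) (249/50) (3/50) ∈ K := ess hK hK0 4 4 0 (49/50) (49/50) (3/50) (by decide +kernel)
    (by norm_num) (by norm_num) (by norm_num) (by norm_num) (by norm_num) (by norm_num) (by norm_num)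
  have h12 : P (249/50) (249/50) (49/50) ∈ K := ess hK hK0 4 4 0 (49/50) (49/50) (49/50) (by decide +kernel)
    (by norm_num) (by norm_num) (by norm_num) (by norm_num) (by norm_num) (by norm_num) (by norm_num)
  have h15 : P (399/50) (49/50) (49/50) ∈ K := ess hK hK0 7 0 0 (49/50) (49/50) (49/50) (by decide +kernel)
    (by norm_num) (by norm_num) (by norm_num) (by norm_num) (by norm_num) (by norm_num) (by norm_num)
  have i0 : P (25/8) (49/8) (1/8) ∈ interior K := cross hc (ε := (1/32)) (by norm_num)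
    (comb hc h0 h5 h8 h11 (13/184) (893/147200) (2323/4800) (1687/3840) (by norm_num) (by norm_num) (by norm_num)
      (by norm_num) (by norm_num) (by norm_num) (by norm_num) (by norm_num))
    (comb hc h0 h5 h8 h11 (13/184) (2043/147200) (791/1600) (539/1280) (by norm_num) (by norm_num) (by norm_num)
      (by norm_num) (by norm_num) (by norm_num) (by norm_num) (by norm_num))
    (comb hc h0 h5 h8 h11 (13/184) (893/147200) (791/1600) (549/1280) (by norm_num) (by norm_num) (by norm_num)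
      (by norm_num) (by norm_num) (by norm_num) (by norm_num) (by norm_num))
    (comb hc h0 h5 h8 h11 (13/184) (2043/147200) (2323/4800) (1657/3840) (by norm_num) (by norm_num) (by norm_num)
      (by norm_num) (by norm_num) (by norm_num) (by norm_num) (by norm_num))
    (comb hc h0 h1 h8 h11 (95293/1248800) (4107/1248800) (65267/133800) (57883/133800) (by norm_num) (by norm_num) (by norm_num)
      (by norm_num) (by norm_num) (by norm_num) (by norm_num) (by norm_num))
    (comb hc h0 h5 h8 h11 (27/736) (7043/147200) (791/1600) (539/1280) (by norm_num) (by norm_num) (by norm_num)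
      (by norm_num) (by norm_num) (by norm_num) (by norm_num) (by norm_num))
  have i1 : P (1/8) (9/8) (17/8) ∈ interior K := cross hc (ε := (1/32)) (by norm_num)
    (comb hc h0 h1 h2 h3 (126633/180320) (6219/39200) (193/5600) (77/736) (by norm_num) (by norm_num) (by norm_num)
      (by norm_num) (by norm_num) (by norm_num) (by norm_num) (by norm_num))
    (comb hc h0 h1 h2 h3 (140263/180320) (6269/39200) (143/5600) (27/736) (by norm_num) (by norm_num) (by norm_num)
      (by norm_num) (by norm_num) (by norm_num) (by norm_num) (by norm_num))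
    (comb hc h0 h1 h2 h3 (66379/90160) (6219/39200) (193/5600) (13/184) (by norm_num) (by norm_num) (by norm_num)
      (by norm_num) (by norm_num) (by norm_num) (by norm_num) (by norm_num))
    (comb hc h0 h1 h2 h3 (67069/90160) (6269/39200) (143/5600) (13/184) (by norm_num) (by norm_num) (by norm_num)
      (by norm_num) (by norm_num) (by norm_num) (by norm_num) (by norm_num))
    (comb hc h0 h1 h2 h3 (2707/3680) (131/800) (3/100) (13/184) (by norm_num) (by norm_num) (by norm_num)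
      (by norm_num) (by norm_num) (by norm_num) (by norm_num) (by norm_num))
    (comb hc h0 h1 h2 h3 (19179/25760) (867/5600) (3/100) (13/184) (by norm_num) (by norm_num) (by norm_num)
      (by norm_num) (by norm_num) (by norm_num) (by norm_num) (by norm_num))
  have i2 : P (9/8) (1/8) (49/8) ∈ interior K := cross hc (ε := (1/32)) (by norm_num)
    (comb hc h0 h3 h4 h15 (5857/145728) (447/2300) (147/200) (193/6336) (by norm_num) (by norm_num) (by norm_num)
      (by norm_num) (by norm_num) (by norm_num) (by norm_num) (by norm_num))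
    (comb hc h0 h3 h4 h15 (637/13248) (447/2300) (147/200) (13/576) (by norm_num) (by norm_num) (by norm_num)
      (by norm_num) (by norm_num) (by norm_num) (by norm_num) (by norm_num))
    (comb hc h0 h3 h4 h15 (10807/145728) (2951/18400) (147/200) (193/6336) (by norm_num) (by norm_num) (by norm_num)
      (by norm_num) (by norm_num) (by norm_num) (by norm_num) (by norm_num))
    (comb hc h0 h3 h4 h15 (187/13248) (4201/18400) (147/200) (13/576) (by norm_num) (by norm_num) (by norm_num)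
      (by norm_num) (by norm_num) (by norm_num) (by norm_num) (by norm_num))
    (comb hc h0 h3 h4 h15 (67/1518) (24457/128800) (4141/5600) (7/264) (by norm_num) (by norm_num) (by norm_num)
      (by norm_num) (by norm_num) (by norm_num) (by norm_num) (by norm_num))
    (comb hc h0 h3 h4 h15 (67/1518) (25607/128800) (4091/5600) (7/264) (by norm_num) (by norm_num) (by norm_num)
      (by norm_num) (by norm_num) (by norm_num) (by norm_num) (by norm_num))
  have i3 : P (49/8) (25/8) (9/8) ∈ interior K := cross hc (ε := (1/32)) (by norm_num)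
    (comb hc h0 h1 h12 h15 (1783/277200) (29/1400) (429/800) (34579/79200) (by norm_num) (by norm_num) (by norm_num)
      (by norm_num) (by norm_num) (by norm_num) (by norm_num) (by norm_num))
    (comb hc h0 h1 h12 h15 (2647/184800) (29/1400) (429/800) (5659/13200) (by norm_num) (by norm_num) (by norm_num)
      (by norm_num) (by norm_num) (by norm_num) (by norm_num) (by norm_num))
    (comb hc h0 h1 h12 h15 (32903/4435200) (29/1400) (1741/3200) (271057/633600) (by norm_num) (by norm_num) (by norm_num)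
      (by norm_num) (by norm_num) (by norm_num) (by norm_num) (by norm_num))
    (comb hc h0 h1 h12 h15 (59153/4435200) (29/1400) (1691/3200) (277207/633600) (by norm_num) (by norm_num) (by norm_num)
      (by norm_num) (by norm_num) (by norm_num) (by norm_num) (by norm_num))
    (comb hc h0 h1 h12 h15 (6557/1108800) (141/5600) (429/800) (68533/158400) (by norm_num) (by norm_num) (by norm_num)
      (by norm_num) (by norm_num) (by norm_num) (by norm_num) (by norm_num))
    (comb hc h0 h1 h12 h15 (2351/158400) (13/800) (429/800) (68533/158400) (by norm_num) (by norm_num) (by norm_num)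
      (by norm_num) (by norm_num) (by norm_num) (by norm_num) (by norm_num))
  exact ⟨i0, i1, i2, i3⟩

/-! ## The lattice simplex -/

/-- Vertices of the lattice simplex. -/
def S0 : Set (E 3) := {P 0 0 0, P (-3) (-5) 2, P (-2) (-6) 6, P 3 (-3) 1}

lemma S0_sub : S0 ⊆ latticeOf U := by
  intro v hv
  rw [mem_lat_iff]
  rcases hv with h | h | h | h
  · subst h
    exact ⟨0, 0, 0, 0, by simp, by simp, by simp, by norm_num⟩
  · subst h
    exact ⟨-3, -5, 2, 0, by simp, by simp, by simp, by norm_num⟩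
  · subst h
    exact ⟨-2, -6, 6, 1, by simp, by simp, by simp, by norm_num⟩
  · rw [mem_singleton_iff] at h
    subst h
    exact ⟨3, -3, 1, 0, by simp, by simp, by simp, by norm_num⟩

lemma S0_interior : (interior (convexHull ℝ S0)).Nonempty := by
  have hc : Convex ℝ (convexHull ℝ S0) := convex_convexHull ℝ S0
  have h0 : P 0 0 0 ∈ convexHull ℝ S0 := subset_convexHull ℝ S0 (by simp [S0])
  have h1 : P (-3) (-5) 2 ∈ convexHull ℝ S0 := subset_convexHull ℝ S0 (by simp [S0])
  have h2 : P (-2) (-6) 6 ∈ convexHull ℝ S0 := subset_convexHull ℝ S0 (by simp [S0])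
  have h3 : P 3 (-3) 1 ∈ convexHull ℝ S0 := subset_convexHull ℝ S0 (by simp [S0])
  refine ⟨P (-1 / 2) (-7 / 2) (9 / 4), ?_⟩
  exact cross hc (ε := (1/2)) (by norm_num)
    (comb hc h0 h1 h2 h3 (37/176) (2/11) (45/176) (31/88) (by norm_num) (by norm_num) (by norm_num)
      (by norm_num) (by norm_num) (by norm_num) (by norm_num) (by norm_num))
    (comb hc h0 h1 h2 h3 (51/176) (7/22) (43/176) (13/88) (by norm_num) (by norm_num) (by norm_num)
      (by norm_num) (by norm_num) (by norm_num) (by norm_num) (by norm_num))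
    (comb hc h0 h1 h2 h3 (69/176) (3/22) (53/176) (15/88) (by norm_num) (by norm_num) (by norm_num)
      (by norm_num) (by norm_num) (by norm_num) (by norm_num) (by norm_num))
    (comb hc h0 h1 h2 h3 (19/176) (4/11) (35/176) (29/88) (by norm_num) (by norm_num) (by norm_num)
      (by norm_num) (by norm_num) (by norm_num) (by norm_num) (by norm_num))
    (comb hc h0 h1 h2 h3 (13/44) (5/44) (17/44) (9/44) (by norm_num) (by norm_num) (by norm_num)
      (by norm_num) (by norm_num) (by norm_num) (by norm_num) (by norm_num))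
    (comb hc h0 h1 h2 h3 (9/44) (17/44) (5/44) (13/44) (by norm_num) (by norm_num) (by norm_num)
      (by norm_num) (by norm_num) (by norm_num) (by norm_num) (by norm_num))

/-- A cone containing the simplex, with apex at the origin. -/
def T : Set (E 3) := {v | v 0 ≤ -v 1 ∧ -v 0 ≤ -v 1 ∧ v 2 ≤ -v 1 ∧ -v 2 ≤ -v 1}

lemma T_convex : Convex ℝ T := by
  intro u hu v hv a b ha hb _
  obtain ⟨u0, u1, u2, u3⟩ := hu
  obtain ⟨v0, v1, v2, v3⟩ := hv
  have g0 := mul_le_mul_of_nonneg_left u0 ha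
  have g1 := mul_le_mul_of_nonneg_left u1 ha
  have g2 := mul_le_mul_of_nonneg_left u2 ha
  have g3 := mul_le_mul_of_nonneg_left u3 ha
  have k0 := mul_le_mul_of_nonneg_left v0 hb
  have k1 := mul_le_mul_of_nonneg_left v1 hb
  have k2 := mul_le_mul_of_nonneg_left v2 hb
  have k3 := mul_le_mul_of_nonneg_left v3 hb
  refine ⟨?_, ?_, ?_, ?_⟩ <;> simp only [PiLp.add_apply, PiLp.smul_apply, smul_eq_mul] <;>
    linarith

lemma hull_sub_T : convexHull ℝ S0 ⊆ T := by
  apply convexHull_min _ T_convex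
  intro v hv
  rcases hv with h | h | h | h
  · subst h
    refine ⟨?_, ?_, ?_, ?_⟩ <;> simp
  · subst h
    refine ⟨?_, ?_, ?_, ?_⟩ <;> simp <;> norm_num
  · subst h
    refine ⟨?_, ?_, ?_, ?_⟩ <;> simp <;> norm_num
  · rw [mem_singleton_iff] at h
    subst h
    refine ⟨?_, ?_, ?_, ?_⟩ <;> simp <;> norm_num

lemma zero_extreme {x : E 3} : x ∈ (translate (convexHull ℝ S0) x).extremePoints ℝ := by
  have h0 : (0 : E 3) ∈ convexHull ℝ S0 := by
    have : (0 : E 3) = P 0 0 0 := ext3 rfl rfl rfl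
    rw [this]
    exact subset_convexHull ℝ S0 (by simp [S0])
  rw [mem_extremePoints]
  refine ⟨⟨0, h0, zero_add x⟩, ?_⟩
  rintro _ ⟨p, hp, rfl⟩ _ ⟨q, hq, rfl⟩ ⟨a, b, ha, hb, hab, e⟩
  obtain ⟨p0, p1, p2, p3⟩ := hull_sub_T hp
  obtain ⟨q0, q1, q2, q3⟩ := hull_sub_T hq
  have e' : a • p + b • q = 0 := by
    have h1 : a • (p + x) + b • (q + x) = a • p + b • q + (a + b) • x := by
      rw [smul_add, smul_add, add_smul]
      abel
    simp only at e
    rw [h1, hab, one_smul] at e
    simpa using e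
  have e1 : a * p 1 + b * q 1 = 0 := by
    have := congrArg (fun v : E 3 => v 1) e'
    simpa using this
  have hp1 : p 1 ≤ 0 := by linarith
  have hq1 : q 1 ≤ 0 := by linarith
  have hp1' : p 1 = 0 := by
    by_contra hne
    have hlt : p 1 < 0 := lt_of_le_of_ne hp1 hne
    have h1 : a * p 1 < 0 := mul_neg_of_pos_of_neg ha hlt
    have h2 : b * q 1 ≤ 0 := mul_nonpos_of_nonneg_of_nonpos hb.le hq1
    linarith
  have hq1' : q 1 = 0 := by
    rw [hp1'] at e1
    simp only [mul_zero, zero_add, mul_eq_zero] at e1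
    rcases e1 with h | h
    · exact absurd h hb.ne'
    · exact h
  have hp : p = 0 := by
    apply ext3
    · show p 0 = 0
      linarith
    · exact hp1'
    · show p 2 = 0
      linarith
  have hq : q = 0 := by
    apply ext3
    · show q 0 = 0
      linarith
    · exact hq1'
    · show q 2 = 0
      linarith
  constructor
  · show p + x = x
    rw [hp, zero_add]
  · show q + x = x
    rw [hq, zero_add]

lemma translate_sub {K : Set (E 3)} (hK : IsCoveringBody (latticeOf U) K) (hK0 : K ⊆ K0) :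
    translate (convexHull ℝ S0) (P (25 / 8) (49 / 8) (1 / 8)) ⊆ interior K := by
  obtain ⟨i0, i1, i2, i3⟩ := four_interior hK hK0
  have hc : Convex ℝ ((fun q : E 3 => q + P (25 / 8) (49 / 8) (1 / 8)) ⁻¹' interior K) := by
    intro u hu v hv a b ha hb hab
    have := hK.2.1.interior hu hv ha hb hab
    have e : a • (u + P (25 / 8) (49 / 8) (1 / 8)) + b • (v + P (25 / 8) (49 / 8) (1 / 8)) =
        (a • u + b • v) + P (25 / 8) (49 / 8) (1 / 8) := by
      rw [smul_add, smul_add]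
      have : a • P (25 / 8) (49 / 8) (1 / 8) + b • P (25 / 8) (49 / 8) (1 / 8) =
          P (25 / 8) (49 / 8) (1 / 8) := by
        rw [← add_smul, hab, one_smul]
      calc _ = (a • u + b • v) +
            (a • P (25 / 8) (49 / 8) (1 / 8) + b • P (25 / 8) (49 / 8) (1 / 8)) := by abel
        _ = _ := by rw [this]
    show (a • u + b • v) + P (25 / 8) (49 / 8) (1 / 8) ∈ interior K
    rw [← e]
    exact this
  rintro _ ⟨q, hq, rfl⟩
  refine convexHull_min ?_ hc hq
  intro v hv
  rcases hv with h | h | h | h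
  · subst h
    show P 0 0 0 + P (25 / 8) (49 / 8) (1 / 8) ∈ interior K
    convert i0 using 1
    apply ext3 <;> simp
  · subst h
    show P (-3) (-5) 2 + P (25 / 8) (49 / 8) (1 / 8) ∈ interior K
    convert i1 using 1
    apply ext3 <;> simp <;> norm_num
  · subst h
    show P (-2) (-6) 6 + P (25 / 8) (49 / 8) (1 / 8) ∈ interior K
    convert i2 using 1
    apply ext3 <;> simp <;> norm_num
  · rw [mem_singleton_iff] at h
    subst h
    show P 3 (-3) 1 + P (25 / 8) (49 / 8) (1 / 8) ∈ interior K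
    convert i3 using 1
    apply ext3 <;> simp <;> norm_num

/-- There are a full-rank lattice in three-space, a minimal covering body `K`, and a
full-dimensional lattice polytope one of whose translates lies in the interior of `K`; in
particular the Lian-Xue statement fails. -/
theorem result :
    (∃ A : Matrix (Fin 3) (Fin 3) ℝ, A.det ≠ 0 ∧
      ∃ K : Set (E 3), IsMinimalCoveringBody (latticeOf A) K ∧
      ∃ Q : Set (E 3), IsFullLatticePolytope (latticeOf A) Q ∧
      ∃ x : E 3, translate Q x ⊆ interior K) ∧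
    ¬ LianXueStatement := by
  obtain ⟨K, hK0, hK⟩ := exists_minimal
  have hsub := translate_sub hK.1 hK0
  have hdet : U.det ≠ 0 := by
    rw [det_U]
    norm_num
  have hQ : IsFullLatticePolytope (latticeOf U) (convexHull ℝ S0) :=
    ⟨S0, by simp [S0], S0_sub, rfl, S0_interior⟩
  refine ⟨⟨U, hdet, K, hK, _, hQ, _, hsub⟩, ?_⟩
  intro h
  have hx := h 3 (by norm_num) U hdet K hK _ hQ _ (hsub.trans interior_subset) _ zero_extreme
  have hi : P (25 / 8) (49 / 8) (1 / 8) ∈ interior K :=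
    hsub ((mem_extremePoints.1 zero_extreme).1)
  exact (hx.2 hi)

end Pool.Agent.Results.MP_4f7bfc_co.InteriorVertex
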